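import Pool.Agent.Lib.MP_684ec1_an.DZ.Spec
import Pool.Agent.Lib.MP_684ec1_an.MD.SEG

/-!
# MP_684ec1, module CRC: the example `(z^N - 1)^K` on a circle
-/

set_option autoImplicit false

namespace Pool.Agent.Lib.MP684ec1.DZ

open Complex Polynomial MeasureTheory intervalIntegral
open Pool.Agent.Lib.MP684ec1.HP

namespace CRCM

/-- the derivative of `arctan |p|` along a curve -/
theorem der (p : ℂ[X]) (γ : ℝ → ℂ) (γ' : ℂ) (t : ℝ) (h : p.eval (γ t) ≠ 0)
    (hγ : HasDerivAt γ γ' t) :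
    HasDerivAt (fun s : ℝ => Real.arctan ‖p.eval (γ s)‖)
      (wt p (γ t) * (lg p (γ t) * γ').re) t := by
  have h1 : HasDerivAt (fun s : ℝ => p.eval (γ s)) (p.derivative.eval (γ t) * γ') t := by
    have h1' := HasDerivAt.comp t (p.hasDerivAt (γ t)) hγ
    exact h1'
  have hpos : 0 < ‖p.eval (γ t)‖ := norm_pos_iff.mpr h
  have h3 : HasDerivAt (fun s : ℝ => ‖p.eval (γ s)‖)
      ((2 * inner ℝ (p.eval (γ t)) (p.derivative.eval (γ t) * γ')) /
        (2 * ‖p.eval (γ t)‖)) t := by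
    have h3' := h1.norm_sq.sqrt (by positivity)
    simp only [Real.sqrt_sq (norm_nonneg _)] at h3'
    exact h3'
  refine h3.arctan.congr_deriv ?_
  rw [MD.SEGM.inner_eq _ _ _ h]
  unfold wt lg
  field_simp

theorem pt_der (r t : ℝ) : HasDerivAt (fun φ : ℝ => pt r φ) (pt r t * I) t := by
  unfold pt
  have h0 : HasDerivAt (fun φ : ℝ => (φ : ℂ) * I) I t := by
    simpa using (Complex.ofRealCLM.hasDerivAt (x := t)).mul_const I
  have h1 := (h0.cexp).const_mul (r : ℂ)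
  refine h1.congr_deriv ?_
  ring

theorem pt_norm (r φ : ℝ) (hr : 0 ≤ r) : ‖pt r φ‖ = r := by
  unfold pt
  rw [norm_mul, Complex.norm_exp_ofReal_mul_I, mul_one, Complex.norm_real,
    Real.norm_of_nonneg hr]

theorem cont_pt (r : ℝ) : Continuous (fun φ : ℝ => pt r φ) :=
  continuous_iff_continuousAt.mpr fun t => (pt_der r t).continuousAt

theorem cont_sph (p : ℂ[X]) (r : ℝ) : Continuous fun t : ℝ => r * sph p (pt r t) := by
  have hcp : Continuous fun t : ℝ => p.eval (pt r t) := p.continuous.comp (cont_pt r)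
  have hcd : Continuous fun t : ℝ => p.derivative.eval (pt r t) :=
    p.derivative.continuous.comp (cont_pt r)
  unfold sph
  exact continuous_const.mul
    (hcd.norm.div (continuous_const.add (hcp.norm.pow 2)) (fun t => by positivity))

/-- the variation on an interval -/
theorem var_le (p : ℂ[X]) (r a b : ℝ) (hr : 0 ≤ r) (hab : a ≤ b)
    (hne : ∀ φ : ℝ, p.eval (pt r φ) ≠ 0) :
    |Real.arctan ‖p.eval (pt r b)‖ - Real.arctan ‖p.eval (pt r a)‖| ≤
      ∫ φ in a..b, r * sph p (pt r φ) := by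
  have hc : Continuous (fun φ : ℝ => pt r φ) := cont_pt r
  have hcp : Continuous fun t : ℝ => p.eval (pt r t) := p.continuous.comp hc
  have hcd : Continuous fun t : ℝ => p.derivative.eval (pt r t) :=
    p.derivative.continuous.comp hc
  have hcw : Continuous fun t : ℝ => wt p (pt r t) := by
    unfold wt
    exact hcp.norm.div (continuous_const.add (hcp.norm.pow 2)) (fun t => by positivity)
  have hcl : Continuous (fun t : ℝ => lg p (pt r t)) := by
    unfold lg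
    exact hcd.div hcp hne
  have hcD : Continuous fun t : ℝ => wt p (pt r t) * (lg p (pt r t) * (pt r t * I)).re :=
    hcw.mul (Complex.continuous_re.comp (hcl.mul (hc.mul continuous_const)))
  rw [← intervalIntegral.integral_eq_sub_of_hasDerivAt
    (fun t _ => der p (fun φ => pt r φ) _ t (hne t) (pt_der r t)) (hcD.intervalIntegrable a b)]
  refine (intervalIntegral.abs_integral_le_integral_abs hab).trans ?_
  refine intervalIntegral.integral_mono_on hab (hcD.abs.intervalIntegrable a b)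
    ((cont_sph p r).intervalIntegrable a b) fun t _ => ?_
  show |wt p (pt r t) * (lg p (pt r t) * (pt r t * I)).re| ≤ r * sph p (pt r t)
  rw [abs_mul]
  have h1 : |(lg p (pt r t) * (pt r t * I)).re| ≤ ‖lg p (pt r t)‖ * r := by
    refine (Complex.abs_re_le_norm _).trans ?_
    rw [norm_mul, norm_mul, Complex.norm_I, mul_one, pt_norm r t hr]
  have hw : 0 ≤ wt p (pt r t) := by
    unfold wt
    positivity
  rw [abs_of_nonneg hw]
  calc wt p (pt r t) * |(lg p (pt r t) * (pt r t * I)).re|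
      ≤ wt p (pt r t) * (‖lg p (pt r t)‖ * r) := mul_le_mul_of_nonneg_left h1 hw
    _ = r * sph p (pt r t) := by
      have := norm_pos_iff.mpr (hne t)
      unfold wt lg sph
      rw [norm_div]
      field_simp

theorem pt_pow (N : ℕ) (r : ℝ) (hN : 0 < N) (j : ℕ) :
    (pt r (j * (Real.pi / N))) ^ N = (r : ℂ) ^ N * (-1) ^ j := by
  unfold pt
  rw [mul_pow, ← Complex.exp_nat_mul]
  congr 1
  have hN' : (N : ℂ) ≠ 0 := by exact_mod_cast hN.ne'
  have h : (N : ℂ) * (((j * (Real.pi / N) : ℝ) : ℂ) * I) = j * (Real.pi * I) := by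
    push_cast
    field_simp
  rw [h, Complex.exp_nat_mul, Complex.exp_pi_mul_I]

theorem eval_eq (N K : ℕ) (z : ℂ) : ((X ^ N - 1) ^ K : ℂ[X]).eval z = (z ^ N - 1) ^ K := by
  simp

theorem ne_zero (N K : ℕ) (r φ : ℝ) (hN : 0 < N) (hr : 0 ≤ r) (hr1 : r < 1) :
    ((X ^ N - 1) ^ K : ℂ[X]).eval (pt r φ) ≠ 0 := by
  rw [eval_eq]
  refine pow_ne_zero _ fun h => ?_
  have h1 : (pt r φ) ^ N = 1 := by linear_combination h
  have h2 : r ^ N = 1 := by
    rw [← pt_norm r φ hr, ← norm_pow, h1, norm_one]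
  exact (pow_lt_one₀ hr hr1 hN.ne').ne h2

theorem bern (N : ℕ) (r : ℝ) (hr : 1 / 2 ≤ r) : 3 ≤ (1 + r ^ N) ^ 2 ^ (N + 1) := by
  have h0 : 0 ≤ r ^ N := by positivity
  have h2 : 1 + ((2 ^ (N + 1) : ℕ) : ℝ) * r ^ N ≤ (1 + r ^ N) ^ 2 ^ (N + 1) :=
    one_add_mul_le_pow (by linarith) _
  have h3 : (2 : ℝ) ≤ ((2 ^ (N + 1) : ℕ) : ℝ) * r ^ N := by
    have h4 : (1 / 2 : ℝ) ^ N ≤ r ^ N := pow_le_pow_left₀ (by norm_num) hr N
    have h5 : (2 : ℝ) ^ N * (1 / 2) ^ N = 1 := by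
      rw [← mul_pow]
      norm_num
    push_cast
    calc (2 : ℝ) = 2 ^ (N + 1) * (1 / 2) ^ N := by
          rw [pow_succ]
          linear_combination (-2) * h5
      _ ≤ _ := by gcongr
  linarith

theorem odd_ge (N : ℕ) (r : ℝ) (hN : 0 < N) (hr : 1 / 2 ≤ r) (j : ℕ) (hj : Odd j) :
    3 ≤ ‖((X ^ N - 1) ^ 2 ^ (N + 1) : ℂ[X]).eval (pt r (j * (Real.pi / N)))‖ := by
  rw [eval_eq, pt_pow N r hN j, hj.neg_one_pow, norm_pow]
  have hr0 : 0 ≤ r := by linarith
  have h1 : ‖(r : ℂ) ^ N * -1 - 1‖ = 1 + r ^ N := by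
    have h : (r : ℂ) ^ N * -1 - 1 = -(((1 + r ^ N : ℝ)) : ℂ) := by
      push_cast
      ring
    rw [h, norm_neg, Complex.norm_real, Real.norm_of_nonneg (by positivity)]
  rw [h1]
  exact bern N r hr

theorem even_le (N : ℕ) (r : ℝ) (hN : 0 < N) (hr : 1 / 2 ≤ r) (hr1 : r < 1) (j : ℕ)
    (hj : Even j) :
    ‖((X ^ N - 1) ^ 2 ^ (N + 1) : ℂ[X]).eval (pt r (j * (Real.pi / N)))‖ ≤ 1 / 3 := by
  rw [eval_eq, pt_pow N r hN j, hj.neg_one_pow, norm_pow]
  have hr0 : 0 ≤ r := by linarith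
  have hx1 : r ^ N ≤ 1 := pow_le_one₀ hr0 hr1.le
  have hx0 : 0 ≤ r ^ N := pow_nonneg hr0 N
  have h1 : ‖(r : ℂ) ^ N * 1 - 1‖ = 1 - r ^ N := by
    have h : (r : ℂ) ^ N * 1 - 1 = -(((1 - r ^ N : ℝ)) : ℂ) := by
      push_cast
      ring
    rw [h, norm_neg, Complex.norm_real, Real.norm_of_nonneg (by linarith)]
  rw [h1]
  have h2 := bern N r hr
  have h3 : (1 - r ^ N) ^ 2 ^ (N + 1) * (1 + r ^ N) ^ 2 ^ (N + 1) ≤ 1 := by
    rw [← mul_pow]
    exact pow_le_one₀ (mul_nonneg (by linarith) (by linarith)) (by nlinarith)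
  have h4 : 0 ≤ (1 - r ^ N) ^ 2 ^ (N + 1) := pow_nonneg (by linarith) _
  have h5 : (1 - r ^ N) ^ 2 ^ (N + 1) * 3 ≤
      (1 - r ^ N) ^ 2 ^ (N + 1) * (1 + r ^ N) ^ 2 ^ (N + 1) :=
    mul_le_mul_of_nonneg_left h2 h4
  linarith

theorem jump (A B : ℝ) (hA : 3 ≤ A) (hB : B ≤ 1 / 3) :
    9 / 10 ≤ Real.arctan A - Real.arctan B := by
  have h1 : Real.arctan 3 ≤ Real.arctan A := Real.arctan_mono hA
  have h2 : Real.arctan B ≤ Real.arctan (1 / 3) := Real.arctan_mono hB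
  have h3 : Real.arctan (1 / 3) = Real.pi / 2 - Real.arctan 3 := by
    rw [one_div]
    exact Real.arctan_inv_of_pos (by norm_num)
  have h4 : Real.arctan (1 / 3) ≤ 1 / 3 := by
    have h := Real.le_tan (Real.arctan_nonneg.mpr (by norm_num : (0 : ℝ) ≤ 1 / 3))
      (Real.arctan_lt_pi_div_two (1 / 3))
    rwa [Real.tan_arctan] at h
  have h5 := Real.pi_gt_d2
  linarith

end CRCM

open CRCM in
theorem specCRC : SpecCRC := by
  intro N r hN hr hr1
  have hr0 : 0 ≤ r := by linarith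
  have hstep : ∀ j : ℕ, 9 / 10 ≤ ∫ φ in ((j : ℝ) * (Real.pi / N))..(((j + 1 : ℕ) : ℝ) *
      (Real.pi / N)), r * sph ((X ^ N - 1) ^ 2 ^ (N + 1) : ℂ[X]) (pt r φ) := by
    intro j
    have hab : (j : ℝ) * (Real.pi / N) ≤ ((j + 1 : ℕ) : ℝ) * (Real.pi / N) := by
      have hpi := Real.pi_pos
      refine mul_le_mul_of_nonneg_right ?_ (by positivity)
      push_cast
      linarith
    refine le_trans ?_ (var_le _ r _ _ hr0 hab (fun φ => ne_zero N _ r φ hN hr0 hr1))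
    rcases Nat.even_or_odd j with hj | hj
    · refine le_trans ?_ (le_abs_self _)
      exact jump _ _ (odd_ge N r hN hr (j + 1) hj.add_one) (even_le N r hN hr hr1 j hj)
    · rw [abs_sub_comm]
      refine le_trans ?_ (le_abs_self _)
      exact jump _ _ (odd_ge N r hN hr j hj) (even_le N r hN hr hr1 (j + 1) hj.add_one)
  have hsum := intervalIntegral.sum_integral_adjacent_intervals (μ := volume)
    (f := fun φ : ℝ => r * sph ((X ^ N - 1) ^ 2 ^ (N + 1) : ℂ[X]) (pt r φ))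
    (a := fun j : ℕ => (j : ℝ) * (Real.pi / N)) (n := 2 * N)
    (fun k _ => (cont_sph _ r).intervalIntegrable _ _)
  have h0 : ((0 : ℕ) : ℝ) * (Real.pi / N) = 0 := by simp
  have h1 : ((2 * N : ℕ) : ℝ) * (Real.pi / N) = 2 * Real.pi := by
    have hN' : (N : ℝ) ≠ 0 := by exact_mod_cast hN.ne'
    push_cast
    field_simp
  simp only [h0, h1] at hsum
  rw [← hsum]
  calc 9 / 5 * (N : ℝ) = ∑ _j ∈ Finset.range (2 * N), (9 / 10 : ℝ) := by
        rw [Finset.sum_const, Finset.card_range, nsmul_eq_mul]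
        push_cast
        ring
    _ ≤ _ := Finset.sum_le_sum fun j _ => hstep j

end Pool.Agent.Lib.MP684ec1.DZ
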