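import Pool.Agent.Lib.MP_684ec1_an.DZ.Spec
import Pool.Agent.Lib.MP_684ec1_an.MD.SEG

/-!
# MP_684ec1, module LIN: the variation of `arctan |p|` on a segment and the distinct zeros
-/

set_option autoImplicit false

namespace Pool.Agent.Lib.MP684ec1.DZ

open Complex Polynomial MeasureTheory intervalIntegral
open Pool.Agent.Lib.MP684ec1.HP

namespace LINM

/-- the numerator of `p'/p` -/
noncomputable def nu (s : Multiset ℂ) : ℂ[X] :=
  ∑ ζ ∈ s.toFinset, C (s.count ζ : ℂ) * ∏ ξ ∈ s.toFinset.erase ζ, (X - C ξ)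

/-- the denominator of `p'/p` -/
noncomputable def de (s : Multiset ℂ) : ℂ[X] := ∏ ζ ∈ s.toFinset, (X - C ζ)

theorem prod_deg (T : Finset ℂ) : (∏ ζ ∈ T, (X - C ζ) : ℂ[X]).natDegree ≤ T.card := by
  refine (natDegree_prod_le _ _).trans ?_
  refine (Finset.sum_le_card_nsmul _ _ 1 fun ζ _ => natDegree_X_sub_C_le ζ).trans ?_
  simp

theorem nu_deg (s : Multiset ℂ) : (nu s).natDegree ≤ s.toFinset.card - 1 := by
  unfold nu
  refine natDegree_sum_le_of_forall_le _ _ fun ζ hζ => ?_
  refine (natDegree_C_mul_le _ _).trans ((prod_deg _).trans ?_)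
  rw [Finset.card_erase_of_mem hζ]

theorem de_deg (s : Multiset ℂ) : (de s).natDegree ≤ s.toFinset.card := prod_deg _

theorem frac (s : Multiset ℂ) (z : ℂ) (hz : z ∉ s) :
    (de s).eval z ≠ 0 ∧ (s.map fun ζ => 1 / (z - ζ)).sum = (nu s).eval z / (de s).eval z := by
  have hne : ∀ ζ ∈ s.toFinset, z - ζ ≠ 0 := fun ζ hζ h => by
    rw [sub_eq_zero] at h
    rw [← h] at hζ
    exact hz (Multiset.mem_toFinset.1 hζ)
  have h1 : (de s).eval z = ∏ ζ ∈ s.toFinset, (z - ζ) := by
    unfold de
    rw [eval_prod]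
    refine Finset.prod_congr rfl fun ζ _ => ?_
    simp
  have h2 : (de s).eval z ≠ 0 := by
    rw [h1]
    exact Finset.prod_ne_zero_iff.2 hne
  refine ⟨h2, ?_⟩
  rw [eq_div_iff h2, Finset.sum_multiset_map_count, Finset.sum_mul]
  unfold nu
  rw [eval_finset_sum]
  refine Finset.sum_congr rfl fun ζ hζ => ?_
  rw [eval_mul, eval_C, eval_prod, h1, ← Finset.mul_prod_erase _ _ hζ, nsmul_eq_mul]
  have h3 : ∏ ξ ∈ s.toFinset.erase ζ, (X - C ξ : ℂ[X]).eval z =
      ∏ ξ ∈ s.toFinset.erase ζ, (z - ξ) := by
    refine Finset.prod_congr rfl fun ξ _ => ?_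
    simp
  rw [h3]
  have h4 := hne ζ hζ
  field_simp

theorem conj_eval (B : ℂ[X]) (w : ℂ) :
    (B.map (starRingEnd ℂ)).eval (starRingEnd ℂ w) = starRingEnd ℂ (B.eval w) := by
  rw [eval_map, eval₂_at_apply]

theorem comp_deg (A : ℂ[X]) (c v : ℂ) : (A.comp (C c + X * C v)).natDegree ≤ A.natDegree := by
  refine natDegree_comp_le.trans ?_
  have h1 : (C c + X * C v : ℂ[X]).natDegree ≤ 1 := by
    refine (natDegree_add_le _ _).trans ?_
    rw [natDegree_C]
    refine max_le (by omega) ?_
    exact (natDegree_mul_C_le _ _).trans natDegree_X_le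
  calc A.natDegree * _ ≤ A.natDegree * 1 := Nat.mul_le_mul le_rfl h1
    _ = A.natDegree := mul_one _

end LINM

open LINM in
theorem specLIN (hVAR : MD.SpecVAR) : SpecLIN := by
  intro p c v a b hp hab hne
  set s : Multiset ℂ := p.roots with hs
  set N : ℕ := s.toFinset.card with hN
  have hmem : ∀ t ∈ Set.Icc a b, c + (t : ℂ) * v ∉ s := fun t ht h =>
    hne t ht ((mem_roots hp).1 h)
  have hB : ∀ t ∈ Set.Icc a b, (de s).eval (c + (t : ℂ) * v) ≠ 0 := fun t ht =>
    (frac s _ (hmem t ht)).1
  have hlg : ∀ t ∈ Set.Icc a b, lg p (c + (t : ℂ) * v) =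
      (nu s).eval (c + (t : ℂ) * v) / (de s).eval (c + (t : ℂ) * v) := by
    intro t ht
    rw [← (frac s _ (hmem t ht)).2]
    unfold lg
    exact (IsAlgClosed.splits p).eval_derivative_div_eval_of_ne_zero (hne t ht)
  rcases Nat.eq_zero_or_pos N with h0 | hpos
  · have hS : s.toFinset = ∅ := Finset.card_eq_zero.1 h0
    have hnu : nu s = 0 := by
      unfold nu
      rw [hS]
      simp
    rw [intervalIntegral.integral_congr (g := fun _ => (0 : ℝ))]
    · rw [intervalIntegral.integral_zero]
      positivity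
    · intro t ht
      rw [Set.uIcc_of_le hab] at ht
      show |((wt p (c + t * v) : ℂ) * lg p (c + t * v) * v).re| = 0
      rw [hlg t ht, hnu]
      simp
  · set Q : ℂ[X] := (nu s).comp (C c + X * C v) *
      ((de s).map (starRingEnd ℂ)).comp (C (starRingEnd ℂ c) + X * C (starRingEnd ℂ v)) * C v
      with hQdef
    have hQ : Q.natDegree ≤ 2 * N - 1 := by
      rw [hQdef]
      refine (natDegree_mul_C_le _ _).trans (natDegree_mul_le.trans ?_)
      have h1 := (comp_deg (nu s) c v).trans (nu_deg s)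
      have h2 := (comp_deg ((de s).map (starRingEnd ℂ)) (starRingEnd ℂ c) (starRingEnd ℂ v)).trans
        (natDegree_map_le.trans (de_deg s))
      omega
    obtain ⟨q, hqm, hq⟩ := MD.SEGM.re_poly Q (2 * N - 1) hQ
    have hqe : ∀ t : ℝ, q.eval t = ((nu s).eval (c + (t : ℂ) * v) *
        starRingEnd ℂ ((de s).eval (c + (t : ℂ) * v)) * v).re := by
      intro t
      rw [hq t, hQdef]
      have h3 : starRingEnd ℂ c + (t : ℂ) * starRingEnd ℂ v = starRingEnd ℂ (c + (t : ℂ) * v) := by
        rw [map_add, map_mul, Complex.conj_ofReal]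
      simp only [eval_mul, eval_comp, eval_add, eval_C, eval_X]
      rw [h3, conj_eval]
    -- the weight
    have hcp : Continuous fun t : ℝ => p.eval (c + t * v) :=
      p.continuous.comp (continuous_const.add (Complex.continuous_ofReal.mul continuous_const))
    have hcB : Continuous fun t : ℝ => (de s).eval (c + t * v) :=
      (de s).continuous.comp (continuous_const.add (Complex.continuous_ofReal.mul continuous_const))
    have hcw : Continuous fun t : ℝ => wt p (c + t * v) := by
      unfold wt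
      exact hcp.norm.div (continuous_const.add (hcp.norm.pow 2)) (fun t => by positivity)
    have hBn : ∀ t ∈ Set.Icc a b, normSq ((de s).eval (c + (t : ℂ) * v)) ≠ 0 := fun t ht h =>
      hB t ht (normSq_eq_zero.1 h)
    have hcW : ContinuousOn (fun t : ℝ => wt p (c + t * v) / normSq ((de s).eval (c + t * v)))
        (Set.Icc a b) :=
      hcw.continuousOn.div (Complex.continuous_normSq.comp hcB).continuousOn hBn
    obtain ⟨K₀, hK₀⟩ := isCompact_Icc.exists_bound_of_continuousOn hcW
    set K : ℝ := 2 * |K₀| + 1 with hK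
    have hK0 : 0 < K := by positivity
    have hwt0 : ∀ z : ℂ, 0 ≤ wt p z := fun z => by
      unfold wt
      positivity
    have hmain : ∀ t ∈ Set.Icc a b, wt p (c + t * v) / normSq ((de s).eval (c + t * v)) / K *
        ((C K * q).eval t + (fun _ => (0 : ℝ)) t) = wt p (c + t * v) * (lg p (c + t * v) * v).re := by
      intro t ht
      rw [hlg t ht, eval_mul, eval_C, hqe t]
      have h5 : (nu s).eval (c + (t : ℂ) * v) / (de s).eval (c + (t : ℂ) * v) * v =
          ((nu s).eval (c + (t : ℂ) * v) * starRingEnd ℂ ((de s).eval (c + (t : ℂ) * v)) * v) *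
            (((normSq ((de s).eval (c + (t : ℂ) * v)))⁻¹ : ℝ) : ℂ) := by
        rw [div_eq_mul_inv, Complex.inv_def]
        ring
      rw [h5, Complex.re_mul_ofReal]
      have h6 := hBn t ht
      have h7 := hK0.ne'
      show wt p (c + t * v) / normSq ((de s).eval (c + t * v)) / K * (K * _ + 0) = _
      field_simp
      ring
    have key := hVAR (fun t => Real.arctan ‖p.eval (c + t * v)‖)
      (fun t => wt p (c + t * v) / normSq ((de s).eval (c + t * v)) / K)
      (fun _ => (0 : ℝ)) (C K * q) (2 * N - 1) a b 0 hab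
      ((natDegree_C_mul_le _ _).trans hqm) (hcW.div_const K) continuousOn_const ?_ ?_ ?_ ?_
    · refine le_trans (le_of_eq ?_) (key.trans (le_of_eq ?_))
      · refine intervalIntegral.integral_congr fun t ht => ?_
        rw [Set.uIcc_of_le hab] at ht
        show |((wt p (c + t * v) : ℂ) * lg p (c + t * v) * v).re| = |wt p (c + t * v) /
          normSq ((de s).eval (c + t * v)) / K * ((C K * q).eval t + (fun _ => (0 : ℝ)) t)|
        rw [hmain t ht, mul_assoc, Complex.re_ofReal_mul]
      · have h8 : ((2 * N - 1 : ℕ) : ℝ) = 2 * N - 1 := by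
          rw [Nat.cast_sub (by omega)]
          push_cast
          ring
        rw [h8]
        ring
    · intro t ht
      rw [hmain t ht]
      exact MD.SEGM.der p c v t (hne t ht)
    · intro t _
      simp
    · intro t ht
      have h9 := hK₀ t ht
      rw [Real.norm_eq_abs] at h9
      have h10 : wt p (c + t * v) / normSq ((de s).eval (c + t * v)) ≤ |K₀| :=
        (le_abs_self _).trans (h9.trans (le_abs_self _))
      constructor
      · exact div_nonneg (div_nonneg (hwt0 _) (normSq_nonneg _)) hK0.le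
      · rw [div_le_iff₀ hK0]
        linarith
    · intro t _
      exact ⟨Real.arctan_nonneg.mpr (norm_nonneg _), (Real.arctan_lt_pi_div_two _).le⟩

end Pool.Agent.Lib.MP684ec1.DZ
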