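import Pool.Agent.Lib.MP_684ec1_an.DZ.Spec

/-!
# MP_684ec1, module LOZ: the example with `N` distinct zeros
-/

set_option autoImplicit false

namespace Pool.Agent.Lib.MP684ec1.DZ

open Complex Polynomial MeasureTheory intervalIntegral
open Pool.Agent.Lib.MP684ec1.HP

noncomputable section

namespace LOZM

theorem cont_sph (p : ℂ[X]) : Continuous (sph p) := by
  unfold sph
  refine (p.derivative.continuous.norm).div
    (continuous_const.add (p.continuous.norm.pow 2)) ?_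
  intro z
  positivity

theorem cont_pt : Continuous (fun x : ℝ × ℝ => pt x.1 x.2) := by
  unfold pt
  fun_prop

theorem card_roots (N K : ℕ) (hN : 0 < N) (hK : K ≠ 0) :
    ((X ^ N - 1) ^ K : ℂ[X]).roots.toFinset.card = N := by
  rw [Polynomial.roots_pow, Multiset.toFinset_nsmul _ _ hK]
  have h1 : (X ^ N - 1 : ℂ[X]).roots = Polynomial.nthRoots N (1 : ℂ) := by
    unfold Polynomial.nthRoots
    rw [Polynomial.C_1]
  rw [h1]
  have h2 := (Complex.isPrimitiveRoot_exp N hN.ne').card_nthRootsFinset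
  rw [Polynomial.nthRootsFinset_def] at h2
  convert h2

theorem low (f : ℂ → ℝ) (hf : Continuous f) (hf0 : ∀ z, 0 ≤ f z) (c : ℝ)
    (hc : ∀ r : ℝ, 1 / 2 ≤ r → r < 1 → c ≤ ∫ φ in (0 : ℝ)..(2 * Real.pi), r * f (pt r φ)) :
    c / 2 ≤ ∫ φ in (0 : ℝ)..(2 * Real.pi), ∫ r in (0 : ℝ)..1, r * f (pt r φ) := by
  have hH : Continuous (fun q : ℝ × ℝ => q.1 * f (pt q.1 q.2)) :=
    continuous_fst.mul (hf.comp cont_pt)
  have hH' : Continuous (fun q : ℝ × ℝ => q.2 * f (pt q.2 q.1)) := hH.comp continuous_swap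
  have hsw : ∫ φ in (0 : ℝ)..(2 * Real.pi), ∫ r in (0 : ℝ)..1, r * f (pt r φ)
      = ∫ r in (0 : ℝ)..1, ∫ φ in (0 : ℝ)..(2 * Real.pi), r * f (pt r φ) := by
    apply intervalIntegral_intervalIntegral_swap (F := fun φ r => r * f (pt r φ))
    have h1 : IntegrableOn (fun q : ℝ × ℝ => q.2 * f (pt q.2 q.1))
        (Set.uIcc 0 (2 * Real.pi) ×ˢ Set.uIcc 0 1) :=
      hH'.continuousOn.integrableOn_compact (isCompact_uIcc.prod isCompact_uIcc)
    exact h1.mono_set (Set.prod_mono Set.uIoc_subset_uIcc Set.uIoc_subset_uIcc)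
  rw [hsw]
  have hG : Continuous (fun r : ℝ => ∫ φ in (0 : ℝ)..(2 * Real.pi), r * f (pt r φ)) :=
    intervalIntegral.continuous_parametric_intervalIntegral_of_continuous' hH 0 (2 * Real.pi)
  have hG0 : ∀ r : ℝ, 0 ≤ r → 0 ≤ ∫ φ in (0 : ℝ)..(2 * Real.pi), r * f (pt r φ) := by
    intro r hr
    apply intervalIntegral.integral_nonneg (by positivity)
    intro φ _
    exact mul_nonneg hr (hf0 _)
  have hsplit := intervalIntegral.integral_add_adjacent_intervals
    (hG.intervalIntegrable (μ := volume) 0 (1 / 2)) (hG.intervalIntegrable (μ := volume) (1 / 2) 1)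
  rw [← hsplit]
  have h1 : 0 ≤ ∫ r in (0 : ℝ)..(1 / 2), ∫ φ in (0 : ℝ)..(2 * Real.pi), r * f (pt r φ) := by
    apply intervalIntegral.integral_nonneg (by norm_num)
    intro r hr
    exact hG0 r hr.1
  have h2 : ∫ r in (1 / 2 : ℝ)..1, c ≤
      ∫ r in (1 / 2 : ℝ)..1, ∫ φ in (0 : ℝ)..(2 * Real.pi), r * f (pt r φ) := by
    apply intervalIntegral.integral_mono_on_of_le_Ioo (by norm_num)
      (intervalIntegrable_const) (hG.intervalIntegrable _ _)
    intro r hr
    exact hc r hr.1.le hr.2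
  rw [intervalIntegral.integral_const, smul_eq_mul] at h2
  linarith

end LOZM

theorem specLOZ (hCRC : SpecCRC) (hPLD : NB.SpecPLD) : SpecLOZ := by
  intro N hN
  refine ⟨LOZM.card_roots N _ hN (by positivity), ?_⟩
  rw [hPLD _ (LOZM.cont_sph _)]
  have h := LOZM.low (sph ((X ^ N - 1) ^ 2 ^ (N + 1) : ℂ[X])) (LOZM.cont_sph _)
    (fun z => by unfold sph; positivity) (9 / 5 * (N : ℝ)) (fun r h1 h2 => hCRC N r hN h1 h2)
  linarith

end

end Pool.Agent.Lib.MP684ec1.DZ
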