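import Pool.Agent.Lib.MP_684ec1_an.DZ.Spec
import Pool.Agent.Lib.MP_684ec1_an.MD.FIN

/-!
# MP_684ec1, DZ: module RTN (helper74)

The bound by the square root of the number of distinct zeros near the disc, and one logarithm.
-/

set_option autoImplicit false

namespace Pool.Agent.Lib.MP684ec1.DZ

open Complex Polynomial MeasureTheory intervalIntegral
open Pool.Agent.Lib.MP684ec1.HP

namespace RTNM

/-- the number of distinct zeros in `|z| ≤ 4` -/
noncomputable def nz (p : ℂ[X]) : ℕ := (p.roots.toFinset.filter (fun z => ‖z‖ ≤ 4)).card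

theorem bx_le (p : ℂ[X]) (hp : p ≠ 0) (k : ℕ) : (MD.Bx p k).ncard ≤ nz p := by
  classical
  have h1 : MD.Bx p k ⊆ (((p.roots.toFinset.filter (fun z => ‖z‖ ≤ 4)).image (MD.fl k) :
      Finset (ℤ × ℤ)) : Set (ℤ × ℤ)) := by
    rintro a ⟨z, hz, hz4, rfl⟩
    rw [Finset.coe_image]
    refine ⟨z, ?_, rfl⟩
    rw [Finset.mem_coe, Finset.mem_filter, Multiset.mem_toFinset]
    exact ⟨(mem_roots hp).2 hz, hz4⟩
  calc (MD.Bx p k).ncard ≤ _ := Set.ncard_le_ncard h1 (Finset.finite_toSet _)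
    _ = _ := Set.ncard_coe_finset _
    _ ≤ nz p := Finset.card_image_le

theorem fl_mem (k : ℕ) (x : ℝ) (hx : |x| ≤ 4) :
    ⌊(2 : ℝ) ^ k * x⌋ ∈ Finset.Icc (-(4 * 2 ^ k : ℤ)) (4 * 2 ^ k) := by
  have h2 : (0 : ℝ) < 2 ^ k := by positivity
  rw [abs_le] at hx
  rw [Finset.mem_Icc]
  constructor
  · rw [Int.le_floor]
    push_cast
    nlinarith
  · have h3 : ((⌊(2 : ℝ) ^ k * x⌋ : ℤ) : ℝ) ≤ ((4 * 2 ^ k : ℤ) : ℝ) := by
      refine (Int.floor_le _).trans ?_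
      push_cast
      nlinarith
    exact_mod_cast h3

theorem bx_le' (p : ℂ[X]) (k : ℕ) : ((MD.Bx p k).ncard : ℝ) ≤ 100 * 4 ^ k := by
  have h1 : MD.Bx p k ⊆ ((Finset.Icc (-(4 * 2 ^ k : ℤ)) (4 * 2 ^ k) ×ˢ
      Finset.Icc (-(4 * 2 ^ k : ℤ)) (4 * 2 ^ k) : Finset (ℤ × ℤ)) : Set (ℤ × ℤ)) := by
    rintro a ⟨z, _, hz4, rfl⟩
    rw [Finset.mem_coe, Finset.mem_product]
    exact ⟨fl_mem k _ ((Complex.abs_re_le_norm z).trans hz4),
      fl_mem k _ ((Complex.abs_im_le_norm z).trans hz4)⟩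
  have h2 : (MD.Bx p k).ncard ≤ (8 * 2 ^ k + 1) * (8 * 2 ^ k + 1) := by
    calc (MD.Bx p k).ncard ≤ _ := Set.ncard_le_ncard h1 (Finset.finite_toSet _)
      _ = _ := Set.ncard_coe_finset _
      _ = (8 * 2 ^ k + 1) * (8 * 2 ^ k + 1) := by
        rw [Finset.card_product, Int.card_Icc]
        have : ((4 * 2 ^ k + 1 - -(4 * 2 ^ k) : ℤ)).toNat = 8 * 2 ^ k + 1 := by
          have h3 : (4 * 2 ^ k + 1 - -(4 * 2 ^ k) : ℤ) = ((8 * 2 ^ k + 1 : ℕ) : ℤ) := by
            push_cast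
            ring
          rw [h3, Int.toNat_natCast]
        rw [this]
  have h3 : ((MD.Bx p k).ncard : ℝ) ≤ (8 * 2 ^ k + 1) * (8 * 2 ^ k + 1) := by
    exact_mod_cast h2
  have h4 : (1 : ℝ) ≤ 2 ^ k := one_le_pow₀ (by norm_num)
  have h5 : (4 : ℝ) ^ k = 2 ^ k * 2 ^ k := by
    rw [← mul_pow]
    norm_num
  rw [h5]
  nlinarith

theorem geo1 (K : ℕ) : ∑ k ∈ Finset.range K, (2 : ℝ) ^ k ≤ 2 ^ K := by
  induction K with
  | zero => simp
  | succ K ih =>
    rw [Finset.sum_range_succ, pow_succ]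
    linarith

theorem geo2' (m : ℕ) : ∑ i ∈ Finset.range m, (1 : ℝ) / 2 ^ i ≤ 2 := by
  have h1 : ∑ i ∈ Finset.range m, (1 : ℝ) / 2 ^ i = 2 - 2 / 2 ^ m := by
    induction m with
    | zero => norm_num
    | succ m ih =>
      rw [Finset.sum_range_succ, ih, pow_succ]
      field_simp
      ring
  rw [h1]
  have h2 : (0 : ℝ) < 2 / 2 ^ m := by positivity
  linarith

theorem sum_le (a : ℕ → ℝ) (s : ℝ) (m : ℕ) (hs : 1 ≤ s) (h0 : ∀ k, 0 ≤ a k)
    (h1 : ∀ k, a k ≤ 100 * 2 ^ k) (h2 : ∀ k, a k ≤ s ^ 2 / 2 ^ k) :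
    ∑ k ∈ Finset.range m, a k ≤ 202 * s := by
  obtain ⟨k₀, hk1, hk2⟩ := exists_nat_pow_near hs (show (1 : ℝ) < 2 by norm_num)
  have e1 : ∑ k ∈ Finset.range m, a k ≤ ∑ k ∈ Finset.range (k₀ + 1 + m), a k :=
    Finset.sum_le_sum_of_subset_of_nonneg
      (Finset.range_subset_range.2 (by omega)) (fun k _ _ => h0 k)
  rw [Finset.sum_range_add] at e1
  have e2 : ∑ k ∈ Finset.range (k₀ + 1), a k ≤ 100 * 2 ^ (k₀ + 1) := by
    calc ∑ k ∈ Finset.range (k₀ + 1), a k ≤ ∑ k ∈ Finset.range (k₀ + 1), 100 * (2 : ℝ) ^ k :=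
          Finset.sum_le_sum fun k _ => h1 k
      _ = 100 * ∑ k ∈ Finset.range (k₀ + 1), (2 : ℝ) ^ k := by rw [Finset.mul_sum]
      _ ≤ 100 * 2 ^ (k₀ + 1) := mul_le_mul_of_nonneg_left (geo1 _) (by norm_num)
  have hP : (0 : ℝ) < 2 ^ k₀ := by positivity
  have e3 : ∑ i ∈ Finset.range m, a (k₀ + 1 + i) ≤ s ^ 2 / 2 ^ k₀ := by
    calc ∑ i ∈ Finset.range m, a (k₀ + 1 + i)
        ≤ ∑ i ∈ Finset.range m, s ^ 2 / 2 ^ (k₀ + 1) * (1 / 2 ^ i) :=
          Finset.sum_le_sum fun i _ => by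
            refine (h2 _).trans_eq ?_
            rw [pow_add]
            field_simp
      _ = s ^ 2 / 2 ^ (k₀ + 1) * ∑ i ∈ Finset.range m, (1 : ℝ) / 2 ^ i := by
          rw [Finset.mul_sum]
      _ ≤ s ^ 2 / 2 ^ (k₀ + 1) * 2 := mul_le_mul_of_nonneg_left (geo2' _) (by positivity)
      _ = s ^ 2 / 2 ^ k₀ := by
          field_simp
          ring
  have e4 : s ^ 2 / 2 ^ k₀ ≤ 2 * s := by
    rw [div_le_iff₀ hP]
    rw [pow_succ] at hk2
    nlinarith
  rw [pow_succ] at e2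
  linarith

end RTNM

open RTNM in
/-- **RTN**. -/
theorem specRTN (hCSA : MD.SpecCSA) (hWHI : MD.SpecWHI) (hCNB : MD.SpecCNB) (hVOL : MD.SpecVOL) :
    SpecRTN := by
  refine ⟨50000, by norm_num, ?_⟩
  intro p hn
  have hp : p ≠ 0 := by
    intro h
    rw [h] at hn
    simp at hn
  change ∫ z in Metric.closedBall (0 : ℂ) 1, sph p z ≤
    50000 * (1 + Real.sqrt ((nz p : ℕ) : ℝ)) * (1 + Real.log p.natDegree)
  have hU : ∀ k : ℕ, ((MD.Un p k).ncard : ℝ) ≤ 9 * ((MD.Bx p k).ncard : ℝ) := by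
    intro k
    have h1 : ((MD.Un p k).ncard : ℝ) ≤ ((9 * (MD.Bx p k).ncard : ℕ) : ℝ) := by
      exact_mod_cast (hCNB p k hp).2
    push_cast at h1
    exact h1
  have hB1 : ∀ k : ℕ, ((MD.Bx p k).ncard : ℝ) ≤ (nz p : ℝ) := fun k => by
    exact_mod_cast bx_le p hp k
  have hB2 := bx_le' p
  generalize nz p = N at *
  have hN0 : (0 : ℝ) ≤ N := Nat.cast_nonneg N
  have hs0 : 0 ≤ √(N : ℝ) := Real.sqrt_nonneg _
  have hss : √(N : ℝ) ^ 2 = N := Real.sq_sqrt hN0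
  have hl0 : 0 ≤ Real.log p.natDegree := Real.log_natCast_nonneg _
  have hpi := Real.pi_lt_d2
  have hpi3 := Real.pi_gt_three
  have hBn0 : 0 ≤ MD.Bn p := by
    unfold MD.Bn
    positivity
  have hBn : MD.Bn p ≤ 12 * (1 + Real.log p.natDegree) := by
    unfold MD.Bn
    have h1 := MD.FINM.clog_le p.natDegree
    have h2 : ((Nat.clog 2 p.natDegree : ℝ) + 1) * Real.pi ≤
        (2 * Real.log p.natDegree + 2) * 3.15 := by
      apply mul_le_mul (by linarith) hpi.le (by linarith) (by linarith)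
    linarith
  have hn' : (0 : ℝ) < p.natDegree := by exact_mod_cast hn
  -- the level m
  obtain ⟨m, hm⟩ := pow_unbounded_of_one_lt ((p.natDegree : ℝ) * Real.pi * (9 * N))
    (show (1 : ℝ) < 4 by norm_num)
  have hT3 : ∫ z in MD.Dk p m, sph p z ≤ 1 := by
    obtain ⟨hv1, hv2⟩ := hVOL p m
    have h1 := hCSA p (MD.Dk p m) (((MD.Un p m).ncard : ℝ) / 4 ^ m) hn (by positivity) hv1
      (fun z hz => by
        rw [mem_closedBall_zero_iff]
        exact hz.1) hv2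
    refine h1.trans ?_
    have h4 : (0 : ℝ) < 4 ^ m := by positivity
    have h2 : (p.natDegree : ℝ) * Real.pi * (((MD.Un p m).ncard : ℝ) / 4 ^ m) ≤ 1 := by
      have h3 : ((MD.Un p m).ncard : ℝ) ≤ 9 * N := (hU m).trans (by linarith [hB1 m])
      have h5 : (p.natDegree : ℝ) * Real.pi * ((MD.Un p m).ncard : ℝ) ≤
          (p.natDegree : ℝ) * Real.pi * (9 * N) :=
        mul_le_mul_of_nonneg_left h3 (by positivity)
      rw [← mul_div_assoc, div_le_one h4]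
      linarith
    rw [Real.sqrt_le_iff]
    exact ⟨by norm_num, by linarith⟩
  have hsum : ∑ k ∈ Finset.range m, ((MD.Bx p k).ncard : ℝ) / 2 ^ k ≤ 202 * √(N : ℝ) := by
    rcases Nat.eq_zero_or_pos N with h0 | h0
    · have hz : ∀ k, ((MD.Bx p k).ncard : ℝ) = 0 := by
        intro k
        have h1 := hB1 k
        rw [h0, Nat.cast_zero] at h1
        exact le_antisymm h1 (Nat.cast_nonneg _)
      rw [Finset.sum_eq_zero (fun k _ => by rw [hz k, zero_div])]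
      positivity
    · have hN1 : (1 : ℝ) ≤ N := by exact_mod_cast h0
      apply sum_le
      · rw [Real.one_le_sqrt]
        exact hN1
      · intro k
        positivity
      · intro k
        rw [div_le_iff₀ (by positivity)]
        have h4 : (100 : ℝ) * 2 ^ k * 2 ^ k = 100 * 4 ^ k := by
          rw [mul_assoc, ← mul_pow]
          norm_num
        rw [h4]
        exact hB2 k
      · intro k
        rw [hss]
        exact div_le_div_of_nonneg_right (hB1 k) (by positivity)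
  have hT2 : ∑ k ∈ Finset.range m, 2 * MD.Bn p * ((MD.Un p k).ncard : ℝ) / 2 ^ k ≤
      18 * MD.Bn p * (202 * √(N : ℝ)) := by
    calc ∑ k ∈ Finset.range m, 2 * MD.Bn p * ((MD.Un p k).ncard : ℝ) / 2 ^ k
        ≤ ∑ k ∈ Finset.range m, 18 * MD.Bn p * (((MD.Bx p k).ncard : ℝ) / 2 ^ k) :=
          Finset.sum_le_sum fun k _ => by
            have h1 : 2 * MD.Bn p * ((MD.Un p k).ncard : ℝ) ≤
                2 * MD.Bn p * (9 * ((MD.Bx p k).ncard : ℝ)) :=
              mul_le_mul_of_nonneg_left (hU k) (by positivity)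
            calc 2 * MD.Bn p * ((MD.Un p k).ncard : ℝ) / 2 ^ k
                ≤ 2 * MD.Bn p * (9 * ((MD.Bx p k).ncard : ℝ)) / 2 ^ k :=
                  div_le_div_of_nonneg_right h1 (by positivity)
              _ = 18 * MD.Bn p * (((MD.Bx p k).ncard : ℝ) / 2 ^ k) := by ring
      _ = 18 * MD.Bn p * ∑ k ∈ Finset.range m, ((MD.Bx p k).ncard : ℝ) / 2 ^ k := by
          rw [Finset.mul_sum]
      _ ≤ 18 * MD.Bn p * (202 * √(N : ℝ)) := mul_le_mul_of_nonneg_left hsum (by positivity)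
  have hW := hWHI p m hn
  have e1 : MD.Bn p * (9 + 3636 * √(N : ℝ)) ≤
      12 * (1 + Real.log p.natDegree) * (3636 * (1 + √(N : ℝ))) :=
    mul_le_mul hBn (by linarith) (by positivity) (by positivity)
  have e2 : (1 : ℝ) ≤ (1 + √(N : ℝ)) * (1 + Real.log p.natDegree) := by nlinarith
  nlinarith

end Pool.Agent.Lib.MP684ec1.DZ
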