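import Pool.Agent.Lib.MP_684ec1_an.DZ.Spec

/-!
# MP_684ec1, DZ: module SQC
-/

set_option autoImplicit false

namespace Pool.Agent.Lib.MP684ec1.DZ

open Complex Polynomial MeasureTheory intervalIntegral
open Pool.Agent.Lib.MP684ec1.HP

namespace SQCM

/-- Fubini for a square, with finitely many exceptional lines. -/
theorem box (g : ℝ × ℝ → ℝ) (B : ℝ) (T : Set ℝ) (hT : T.Finite)
    (h2 : IntegrableOn g (Set.Icc (-1) 1 ×ˢ Set.Icc (-1) 1))
    (hB : ∀ y : ℝ, y ∉ T → ∫ x in (-1 : ℝ)..1, g (y, x) ≤ B) :
    ∫ q in Set.Icc (-1) 1 ×ˢ Set.Icc (-1) 1, g q ≤ 2 * B := by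
  have h3 : Integrable g ((volume.restrict (Set.Icc (-1 : ℝ) 1)).prod
      (volume.restrict (Set.Icc (-1 : ℝ) 1))) := by
    rw [Measure.prod_restrict, ← Measure.volume_eq_prod]
    exact h2
  have h4 := h3.integral_prod_left
  rw [Measure.volume_eq_prod, setIntegral_prod _ (by rw [← Measure.volume_eq_prod]; exact h2)]
  have h5 : ∫ y in Set.Icc (-1 : ℝ) 1, ∫ x in Set.Icc (-1 : ℝ) 1, g (y, x) ≤
      ∫ _ in Set.Icc (-1 : ℝ) 1, B := by
    refine setIntegral_mono_on_ae h4 ?_ measurableSet_Icc ?_
    · exact integrableOn_const (by simp)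
    · filter_upwards [hT.countable.ae_notMem volume] with y hy _
      have h6 := hB y hy
      rw [intervalIntegral.integral_of_le (by norm_num)] at h6
      rw [integral_Icc_eq_integral_Ioc]
      exact h6
  refine h5.trans (le_of_eq ?_)
  rw [setIntegral_const, Real.volume_real_Icc_of_le (by norm_num), smul_eq_mul]
  norm_num

end SQCM

open SQCM in
theorem specSQC (hLIN : SpecLIN) : SpecSQC := by
  intro p
  by_cases hp0 : p = 0
  · subst hp0
    have h1 : ∀ z : ℂ, sph (0 : ℂ[X]) z = 0 := by
      intro z
      simp [sph]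
    simp [h1]
  let g : ℂ → ℂ := fun z => (wt p z : ℂ) * lg p z
  have hwt : Continuous (fun z : ℂ => wt p z) := by
    unfold wt
    refine Continuous.div (by fun_prop) (by fun_prop) ?_
    intro z
    positivity
  have hgm : Measurable g := by
    refine Measurable.mul (Complex.continuous_ofReal.comp hwt).measurable ?_
    unfold lg
    exact p.derivative.continuous.measurable.div p.continuous.measurable
  have hgn : ∀ z : ℂ, p.eval z ≠ 0 → sph p z = ‖g z‖ := by
    intro z hz0
    have hn0 : 0 < ‖p.eval z‖ := norm_pos_iff.2 hz0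
    simp only [g]
    rw [norm_mul, Complex.norm_real, Real.norm_eq_abs, lg, norm_div, wt, abs_of_nonneg
      (by positivity), sph]
    field_simp
  have hsph0 : ∀ z, 0 ≤ sph p z := by
    intro z
    unfold sph
    positivity
  have hgle : ∀ z : ℂ, ‖g z‖ ≤ sph p z := by
    intro z
    by_cases hz : p.eval z = 0
    · have h1 : g z = 0 := by simp [g, lg, hz]
      rw [h1, norm_zero]
      exact hsph0 z
    · exact (hgn z hz).ge
  have hsphc : Continuous (sph p) := by
    unfold sph
    refine Continuous.div (by fun_prop) (by fun_prop) ?_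
    intro z
    positivity
  -- the square
  let Q : Set (ℝ × ℝ) := Set.Icc (-1) 1 ×ˢ Set.Icc (-1) 1
  let S : Set ℂ := Complex.measurableEquivRealProd ⁻¹' Q
  have hSm : MeasurableSet S :=
    Complex.measurableEquivRealProd.measurable (measurableSet_Icc.prod measurableSet_Icc)
  have hSmem : ∀ z : ℂ, z ∈ S ↔ (-1 ≤ z.re ∧ z.re ≤ 1) ∧ (-1 ≤ z.im ∧ z.im ≤ 1) := by
    intro z
    simp only [S, Q, Set.mem_preimage, Complex.measurableEquivRealProd_apply, Set.mem_prod,
      Set.mem_Icc]
  have hSball : S ⊆ Metric.closedBall (0 : ℂ) 2 := by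
    intro z hz
    rw [hSmem] at hz
    rw [Metric.mem_closedBall, dist_zero_right]
    have h1 := Complex.norm_le_abs_re_add_abs_im z
    have h2 := abs_le.2 hz.1
    have h3 := abs_le.2 hz.2
    linarith
  have hball : Metric.closedBall (0 : ℂ) 1 ⊆ S := by
    intro z hz
    rw [Metric.mem_closedBall, dist_zero_right] at hz
    rw [hSmem]
    exact ⟨abs_le.1 ((Complex.abs_re_le_norm z).trans hz),
      abs_le.1 ((Complex.abs_im_le_norm z).trans hz)⟩
  have hints : IntegrableOn (sph p) S :=
    (hsphc.continuousOn.integrableOn_compact (isCompact_closedBall (0 : ℂ) 2)).mono_set hSball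
  have hintv : IntegrableOn (fun z => |(g z * I).re|) S := by
    refine hints.mono' ?_ ?_
    · exact (Complex.measurable_re.comp (hgm.mul_const I)).norm.aestronglyMeasurable
    · filter_upwards with z
      rw [Real.norm_eq_abs, abs_abs]
      refine (Complex.abs_re_le_norm _).trans ?_
      rw [norm_mul, Complex.norm_I, mul_one]
      exact hgle z
  have hinth : IntegrableOn (fun z => |(g z * 1).re|) S := by
    refine hints.mono' ?_ ?_
    · exact (Complex.measurable_re.comp (hgm.mul_const 1)).norm.aestronglyMeasurable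
    · filter_upwards with z
      rw [Real.norm_eq_abs, abs_abs]
      refine (Complex.abs_re_le_norm _).trans ?_
      rw [mul_one]
      exact hgle z
  -- the two functions of two real variables
  let gh : ℝ × ℝ → ℝ := fun q => |(g ((q.2 : ℂ) + (q.1 : ℂ) * I) * 1).re|
  let gv : ℝ × ℝ → ℝ := fun q => |(g ((q.1 : ℂ) + (q.2 : ℂ) * I) * I).re|
  let e' : ℂ ≃ᵐ ℝ × ℝ := Complex.measurableEquivRealProd.trans MeasurableEquiv.prodComm
  have he' : MeasurePreserving e' := by
    have h1 : MeasurePreserving (Prod.swap : ℝ × ℝ → ℝ × ℝ) volume volume := by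
      have := Measure.measurePreserving_swap (μ := (volume : Measure ℝ)) (ν := (volume : Measure ℝ))
      rwa [← Measure.volume_eq_prod] at this
    exact h1.comp Complex.volume_preserving_equiv_real_prod
  have hS2 : S = e' ⁻¹' Q := by
    ext z
    rw [hSmem]
    simp only [Q, Set.mem_preimage, e', MeasurableEquiv.coe_trans, Function.comp_apply,
      Complex.measurableEquivRealProd_apply]
    exact and_comm
  have hev : (fun z : ℂ => |(g z * I).re|) = gv ∘ Complex.measurableEquivRealProd := by
    funext z
    simp only [gv, Function.comp_apply, Complex.measurableEquivRealProd_apply, Complex.re_add_im]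
  have heh : (fun z : ℂ => |(g z * 1).re|) = gh ∘ e' := by
    funext z
    change _ = |(g ((z.re : ℂ) + (z.im : ℂ) * I) * 1).re|
    rw [Complex.re_add_im]
  have hIv : ∫ z in S, |(g z * I).re| = ∫ q in Q, gv q := by
    rw [hev]
    exact Complex.volume_preserving_equiv_real_prod.setIntegral_preimage_emb
      Complex.measurableEquivRealProd.measurableEmbedding gv _
  have hIh : ∫ z in S, |(g z * 1).re| = ∫ q in Q, gh q := by
    rw [hS2, heh]
    exact he'.setIntegral_preimage_emb e'.measurableEmbedding gh _
  have hIOv : IntegrableOn gv Q := by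
    rw [hev] at hintv
    exact (Complex.volume_preserving_equiv_real_prod.integrableOn_comp_preimage
      Complex.measurableEquivRealProd.measurableEmbedding).1 hintv
  have hIOh : IntegrableOn gh Q := by
    rw [heh, hS2] at hinth
    exact (he'.integrableOn_comp_preimage e'.measurableEmbedding).1 hinth
  have hroot : ∀ z : ℂ, p.eval z = 0 → z ∈ p.roots.toFinset := by
    intro z hz
    rw [Multiset.mem_toFinset, Polynomial.mem_roots hp0]
    exact hz
  have hh := box gh (Real.pi * p.roots.toFinset.card)
    ((p.roots.toFinset.image Complex.im : Finset ℝ) : Set ℝ) (Finset.finite_toSet _) hIOh (by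
      intro y hy
      refine le_trans (le_of_eq ?_) (hLIN p ((y : ℂ) * I) 1 (-1) 1 hp0 (by norm_num) ?_)
      · refine intervalIntegral.integral_congr fun t _ => ?_
        simp only [gh, g, mul_one, add_comm ((y : ℂ) * I) (t : ℂ)]
      · intro t _ h0
        apply hy
        rw [Finset.mem_coe, Finset.mem_image]
        refine ⟨_, hroot _ h0, ?_⟩
        simp)
  have hv := box gv (Real.pi * p.roots.toFinset.card)
    ((p.roots.toFinset.image Complex.re : Finset ℝ) : Set ℝ) (Finset.finite_toSet _) hIOv (by
      intro x hx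
      refine hLIN p (x : ℂ) I (-1) 1 hp0 (by norm_num) ?_
      intro t _ h0
      apply hx
      rw [Finset.mem_coe, Finset.mem_image]
      refine ⟨_, hroot _ h0, ?_⟩
      simp)
  -- pointwise, off the zeros
  have hpt : ∀ᵐ z ∂(volume.restrict S), sph p z ≤ |(g z * 1).re| + |(g z * I).re| := by
    have h1 : (p.roots.toFinset : Set ℂ).Countable := (Finset.finite_toSet _).countable
    filter_upwards [ae_restrict_of_ae (h1.ae_notMem volume)] with z hz
    have hz0 : p.eval z ≠ 0 := fun h => hz (hroot z h)
    rw [hgn z hz0]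
    have h2 : (g z * 1).re = (g z).re := by rw [mul_one]
    have h3 : (g z * I).re = -(g z).im := by simp
    rw [h2, h3, abs_neg]
    exact Complex.norm_le_abs_re_add_abs_im (g z)
  calc ∫ z in Metric.closedBall (0 : ℂ) 1, sph p z ≤ ∫ z in S, sph p z :=
        setIntegral_mono_set hints (Filter.Eventually.of_forall hsph0) hball.eventuallyLE
    _ ≤ ∫ z in S, (|(g z * 1).re| + |(g z * I).re|) :=
        integral_mono_ae hints (hinth.add hintv) hpt
    _ = (∫ z in S, |(g z * 1).re|) + ∫ z in S, |(g z * I).re| := integral_add hinth hintv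
    _ ≤ 2 * (Real.pi * p.roots.toFinset.card) + 2 * (Real.pi * p.roots.toFinset.card) := by
        rw [hIh, hIv]
        exact add_le_add hh hv
    _ = 4 * Real.pi * p.roots.toFinset.card := by ring

end Pool.Agent.Lib.MP684ec1.DZ
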