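import Pool.Agent.Lib.MP_684ec1_an.HP.POL
import Pool.Agent.Lib.MP_684ec1_an.MD.Main
import Pool.Agent.Lib.MP_684ec1_an.NB.PLD
import Pool.Agent.Lib.MP_684ec1_an.DZ.LIN
import Pool.Agent.Lib.MP_684ec1_an.DZ.SQC
import Pool.Agent.Lib.MP_684ec1_an.DZ.CRC
import Pool.Agent.Lib.MP_684ec1_an.DZ.LOZ
import Pool.Agent.Lib.MP_684ec1_an.DZ.RTN

/-!
# MP_684ec1, DZ: assembly
-/

set_option autoImplicit false

namespace Pool.Agent.Lib.MP684ec1.DZ

theorem allSQC : SpecSQC := specSQC (specLIN MD.specVAR)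

theorem allLOZ : SpecLOZ := specLOZ specCRC (NB.specPLD HP.specPOL)

theorem allRTN : SpecRTN :=
  specRTN (MD.specCSA MD.specARE) (MD.specWHI MD.allSQR) MD.specCNB MD.specVOL

end Pool.Agent.Lib.MP684ec1.DZ
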