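import Pool.Agent.Lib.MP_684ec1_an.MD.Spec
import Pool.Agent.Lib.MP_684ec1_an.NB.Spec

/-!
# MP_684ec1: Littlewood's integral and the number of distinct zeros. Definitions and exact statements

THEOREM (`Results/MP_684ec1_an/DistinctZeros.lean`). Let `p` be a polynomial with `N` distinct zeros (any multiplicities, so that the degree `n` is
arbitrary), `N'` of them in `|z| ≤ 4`. (1) `P(p) ≤ 4 π N`. (2) The order is right: for every `N ≥ 1` some `p` with exactly `N` distinct zeros has `P(p) ≥ (9/10) N`.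
(3) `P(p) ≤ C (1 + √N') (1 + log n)` with an absolute constant `C`.

Module `XXX` is the file `DZ/XXX.lean` with `theorem specXXX (hYYY : SpecYYY) .. : SpecXXX` (the modules named after USES, in this
order) in the namespace `Pool.Agent.Lib.MP684ec1.DZ`, own lemmas in the namespace `XXXM`. Every module imports
`Pool.Agent.Lib.MP_684ec1_an.DZ.Spec` (and, where said, the file it adapts). All proofs below are complete.

IDEA. `W = arctan |p|`, `|∇W| = |p'|/(1+|p|²)`. `p'/p = A/B` with `deg B = N`, `deg A < N`: on a line `Re (v p'/p)` is `q/|B|²` with a real polynomial `q` of degree `≤ 2N - 1`,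
so `W` has at most `2N` monotone pieces. Example: `(z^N - 1)^K`, `K` large: `W` jumps from nearly `0` to nearly `π/2` and back `N` times on every circle.
-/

set_option autoImplicit false

namespace Pool.Agent.Lib.MP684ec1.DZ

open Complex Polynomial MeasureTheory intervalIntegral
open Pool.Agent.Lib.MP684ec1.HP

noncomputable section

/-- **LIN** (150 lines), USES `MD.SpecVAR` (hypothesis `(hVAR : MD.SpecVAR)`). Variation of `arctan |p|` on a segment; compare `MD/SEG.lean` (may be imported: `SEGM.re_poly`, `SEGM.der`).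
PROOF. `s = p.roots.toFinset`, `N` its number of elements. `N = 0`: `p` is constant, `lg p = 0`. `N ≥ 1`: `B = ∏_(ζ ∈ s) (X - C ζ)`, `A = ∑_(ζ ∈ s) C m_ζ ∏_(ζ' ∈ s.erase ζ) (X - C ζ')` (`m_ζ` the multiplicity), `natDegree A ≤ N - 1`,
and `lg p z = ∑_(roots) 1/(z - ζ) = A(z)/B(z)` if `p(z) ≠ 0` (as in `MD/TAY.lean`). `conj (B(c + t v)) = (B.map conj).eval (conj c + t conj v)`, so `Re (A(c + t v) conj(B(c + t v)) v) = q(t)`, `q` a real polynomial of degree `≤ 2N - 1`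
(`SEGM.re_poly`). Hence `Re (wt lg v) = w q`, `w = wt/|B|² ≥ 0` continuous on `[a, b]`. Let `K > 0`, `w/K ≤ 1/2` on `[a, b]`. VAR for `W = arctan |p(c + t v)|` (derivative `SEGM.der`), `w/K`, `e = 0`, `K q`, `m = 2N - 1`, `η = 0`: `≤ 2N π/2`. -/
def SpecLIN : Prop := ∀ (p : ℂ[X]) (c v : ℂ) (a b : ℝ), p ≠ 0 → a ≤ b → (∀ t ∈ Set.Icc a b, p.eval (c + t * v) ≠ 0) →
  ∫ t in a..b, |((wt p (c + t * v) : ℂ) * lg p (c + t * v) * v).re| ≤ Real.pi * p.roots.toFinset.card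

/-- **SQC** (150 lines), USES LIN. Compare `MD/SQR.lean` (may be imported).
PROOF. `p = 0`: `sph = 0`. `g = wt · lg` is measurable and `|g| = sph p` where `p ≠ 0` (`g = 0` at the zeros), so it is bounded on bounded sets and `sph p ≤ |Re g| + |Re (g I)|` off the finite set of the zeros. The disc is contained in the square
`[-1, 1] × [-1, 1]` (`sph ≥ 0`). Fubini (`Complex.volume_preserving_equiv_real_prod`) for `|Re g|` along the horizontal lines: for all `y` but finitely many there is no zero of `p` on the line and LIN (`v = 1`, `c = y I`, `[-1, 1]`) gives `≤ π N`;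
so the integral over the square is `≤ 2 π N`. The same for `|Re (g I)|` on the vertical lines (`v = I`). -/
def SpecSQC : Prop := ∀ p : ℂ[X],
  ∫ z in Metric.closedBall (0 : ℂ) 1, sph p z ≤ 4 * Real.pi * p.roots.toFinset.card

/-- **CRC** (120 lines). The example on a circle.
PROOF. `p = (X^N - 1)^K`, `K = 2^(N+1)`, `1/2 ≤ r < 1`: `p ≠ 0` on the circle. `W(φ) = arctan |p(r e^(iφ))|` has the derivative `Re (wt lg · i r e^(iφ))` (chain rule as in `MD/SEG.lean`, `SEGM.inner_eq`), of modulus `≤ r sph`. At `φ_j = j π/N` (`j = 0, .., 2N`)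
`|p| = |1 - (-1)^j r^N|^K`: `≥ 1 + K r^N ≥ 3` for `j` odd (Bernoulli, `r^N ≥ 2^(-N)`), `(1 - r^N)^K ≤ 1/(1 + r^N)^K ≤ 1/3` for `j` even. So `|W(φ_(j+1)) - W(φ_j)| ≥ arctan 3 - arctan (1/3) = π/2 - 2 arctan (1/3) ≥ 1.57 - 2/3 ≥ 9/10`, and
`∫_0^2π r sph ≥ ∑_(j<2N) |W(φ_(j+1)) - W(φ_j)|`. -/
def SpecCRC : Prop := ∀ (N : ℕ) (r : ℝ), 0 < N → 1 / 2 ≤ r → r < 1 →
  9 / 5 * (N : ℝ) ≤ ∫ φ in (0 : ℝ)..(2 * Real.pi), r * sph ((X ^ N - 1) ^ 2 ^ (N + 1) : ℂ[X]) (pt r φ)

/-- **LOZ** (120 lines), USES CRC and `NB.SpecPLD` (hypothesis `(hPLD : NB.SpecPLD)`).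
PROOF. `X^N - 1` has exactly `N` distinct roots (`X_pow_sub_one_separable`-like lemmas, `Polynomial.card_nthRoots` / `IsPrimitiveRoot.card_nthRoots`; `roots (q ^ K) = K • roots q`). PLD and the exchange of the integrals (`sph` and `pt` are continuous):
`P = ∫_0^1 ∫_0^2π r sph dφ dr ≥ ∫_(1/2)^1 (9/5) N dr = (9/10) N`. -/
def SpecLOZ : Prop := ∀ N : ℕ, 0 < N → ((X ^ N - 1) ^ 2 ^ (N + 1) : ℂ[X]).roots.toFinset.card = N ∧
  9 / 10 * (N : ℝ) ≤ ∫ z in Metric.closedBall (0 : ℂ) 1, sph ((X ^ N - 1) ^ 2 ^ (N + 1) : ℂ[X]) z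

/-- **RTN** (180 lines), USES `MD.SpecCSA, MD.SpecWHI, MD.SpecCNB, MD.SpecVOL` (hypotheses in this order, as `MD/FIN.lean`, which may be imported and copied).
PROOF. `N'` the number on the right, `s = √N'`. `(MD.Bx p k).ncard ≤ N'` (image of the zeros in `|z| ≤ 4` under `fl k`) and `≤ (8 · 2^k + 2)² ≤ 100 · 4^k` (`|a_i| ≤ 4 · 2^k + 1`). `(MD.Un p k).ncard ≤ 9 (MD.Bx p k).ncard`. Choose `m` with `9 π n N' ≤ 4^m`: by CSA and VOL
the last term of WHI is `≤ √(n π 9 N' / 4^m) ≤ 1`. If `N' = 0` the sum in WHI is `0`. If `N' ≥ 1` let `2^(k₀) ≤ s < 2^(k₀+1)`; `min (N', 100 · 4^k)/2^k` is `≤ 100 · 2^k` and `≤ s²/2^k`, so `∑_k ≤ 200 · 2^(k₀) + s²/2^(k₀) ≤ 202 s` and the sum in WHI is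
`≤ 18 · 202 · s · Bn`. `Bn ≤ 12 (1 + log n)` (`MD/FIN.lean`). -/
def SpecRTN : Prop := ∃ C : ℝ, 0 < C ∧ ∀ p : ℂ[X], 0 < p.natDegree →
  ∫ z in Metric.closedBall (0 : ℂ) 1, sph p z ≤
    C * (1 + Real.sqrt ((p.roots.toFinset.filter (fun z => ‖z‖ ≤ 4)).card)) * (1 + Real.log p.natDegree)

end

end Pool.Agent.Lib.MP684ec1.DZ
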